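import Pool.Agent.Helper64.DT.Stmts

/-! Diamond-free circle graphs (MP_866009_co): module D2. -/

set_option autoImplicit false

namespace Pool.Agent.Helper64.DT

open Pool.Agent.Helper64.CT

theorem st_D2 (h1 : CT.ST_ALS) (h2 : ST_D1) (h3 : ST_D2P) (h4 : ST_D2S) : ST_D2 := by
  intro V G s hpre hpr hDF hCI hS hT a c y hac hy
  have hca : c ∈ Far G a := Far.symm hac
  by_cases hE : ∃ z, Lam G a c y z ∧ Conf G c z a
  · obtain ⟨z, hL, hC⟩ := hE
    obtain ⟨hz, hi⟩ := h3 V G s hS a c y z hac hy hL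
    obtain ⟨-, -, u, hu1, hu2⟩ := id hC
    have e1 : s a z = s a c := h2 V G s hDF hCI hS hT a c z u hac hz hu1 hu2
    have e2 : s c z ≠ s c a := (hS c).2 z a hC
    rw [e1] at hi
    have key : s a y = s a c ↔ s c y ≠ s c a := by
      rw [hi]
      revert e2
      generalize s c z = b1
      generalize s c a = b2
      generalize s c y = b3
      revert b1 b2 b3
      decide
    refine ⟨fun h => h.1 (key.2 h.2), fun h h' => absurd h' (key.1 h)⟩
  by_cases hE' : ∃ z, Lam G a c y z ∧ Conf G a z c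
  · obtain ⟨z, hL, hC⟩ := hE'
    obtain ⟨hz, hi⟩ := h3 V G s hS a c y z hac hy hL
    obtain ⟨hz', -, -⟩ := h1 V G a c z hac hz
    obtain ⟨-, -, u, hu1, hu2⟩ := id hC
    have e1 : s c z = s c a := h2 V G s hDF hCI hS hT c a z u hca hz' hu1 hu2
    have e2 : s a z ≠ s a c := (hS a).2 z c hC
    rw [e1] at hi
    have key : s c y = s c a ↔ s a y ≠ s a c := by
      rw [← hi]
      revert e2
      generalize s a z = b1
      generalize s a c = b2
      generalize s a y = b3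
      revert b1 b2 b3
      decide
    refine ⟨fun h => h.2 (key.2 h.1), fun h h' => absurd h (key.1 h')⟩
  obtain ⟨hs, halt⟩ := h4 V G hpre hpr hDF a c y hac hy (fun z hz hC => hE ⟨z, hz, hC⟩)
    (fun z hz hC => hE' ⟨z, hz, hC⟩)
  rcases halt with ⟨hA, u, hu1, hu2⟩ | ⟨hA, u, hu1, hu2⟩
  · obtain ⟨hy', -, hatt⟩ := h1 V G a c y hac hy
    have e1 : s c y = s c a := h2 V G s hDF hCI hS hT c a y u hca hy' hu1 (by rw [hatt]; exact hu2)
    exact ⟨fun h => h.2 e1, fun _ _ => ⟨hs, Or.inl hA⟩⟩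
  · have e1 : s a y = s a c := h2 V G s hDF hCI hS hT a c y u hac hy hu1 hu2
    exact ⟨fun h => h.1 e1, fun _ _ => ⟨hs, Or.inr hA⟩⟩

end Pool.Agent.Helper64.DT
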