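import Pool.Agent.Helper64.DT.Stmts

/-! Diamond-free circle graphs (MP_866009_co): module D2P. -/

set_option autoImplicit false

namespace Pool.Agent.Helper64.DT

open Pool.Agent.Helper64.CT

theorem d2p_conf (h1 : CT.ST_ALS) {V : Type} {G : SimpleGraph V} {a c u w : V}
    (hac : a ∈ Far G c) (hu : Alpha G a c u) (hw : Alpha G a c w) (h : Conf G c u w) :
    Conf G a u w := by
  obtain ⟨-, hiu, hau⟩ := h1 V G a c u hac hu
  obtain ⟨-, hiw, haw⟩ := h1 V G a c w hac hw
  obtain ⟨h2, ⟨p, hp1, hp2⟩, q, hq1, hq2⟩ := h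
  refine ⟨fun h3 => h2 ((hiu w).1 h3), ⟨p, (hiu p).2 hp1, ?_⟩, q, (hiw q).2 hq1, ?_⟩
  · rw [haw]; exact hp2
  · rw [hau]; exact hq2

theorem st_D2P (h1 : CT.ST_ALS) : ST_D2P := by
  intro V G s hS a c y z hac hy hL
  induction hL with
  | refl => exact ⟨hy, by simp⟩
  | @tail u w _ huw ih =>
    obtain ⟨hu, hi⟩ := ih
    obtain ⟨hw, huw⟩ := huw
    refine ⟨hw, ?_⟩
    rcases huw with h | h
    · have e1 : s c u = s c w := (hS c).1 u w h
      have e2 : s a u = s a w := (hS a).1 u w (((h1 V G a c u hac hu).2.1 w).2 h)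
      rw [← e1, ← e2]
      exact hi
    · have e1 : s c u ≠ s c w := (hS c).2 u w h
      have e2 : s a u ≠ s a w := (hS a).2 u w (d2p_conf h1 hac hu hw h)
      revert hi e1 e2
      generalize s c u = b1
      generalize s c w = b2
      generalize s a u = b3
      generalize s a w = b4
      generalize s a y = b5
      generalize s c y = b6
      revert b1 b2 b3 b4 b5 b6
      decide

end Pool.Agent.Helper64.DT
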